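import Pool.Agent.Lib.MP_3ee548_nt.RS.Iface
import Pool.Agent.Lib.MP_6bc78b_nt.WeylDiff

set_option autoImplicit false

open Finset

namespace Pool.Agent.Lib.MP_3ee548_nt.RS.H65

open Pool.Agent.Lib.MP_3ee548_nt.RS
open Pool.Agent.Lib.MP_6bc78b_nt (ei vdc2 weyl_vdc)

/-- the k-th derivative test with general exponents. -/
def PP (k : ℕ) (κ ρ : ℝ) : Prop := ∀ A : ℝ, 1 ≤ A → ∃ C : ℝ, 0 < C ∧
  ∀ (φ : ℕ → ℝ) (a b : ℕ) (mu : ℝ), a < b → b ≤ 2 * a → 0 < mu →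
  (∀ n, a ≤ n → n + k < b → mu ≤ Dk k φ n ∧ Dk k φ n ≤ A * mu) →
  ‖∑ n ∈ Finset.Ico a b, e (φ n)‖ ≤ C * (((b : ℝ) - a) * mu ^ κ + ((b : ℝ) - a) ^ ρ * mu ^ (-κ))

lemma e_eq (x : ℝ) : e x = ei (2 * Real.pi * x) := rfl

lemma norm_e (x : ℝ) : ‖e x‖ = 1 := by
  unfold e; exact Complex.norm_exp_ofReal_mul_I _

lemma Dk_zero (φ : ℕ → ℝ) (n : ℕ) : Dk 0 φ n = φ n := rfl

lemma Dk_succ (k : ℕ) (φ : ℕ → ℝ) (n : ℕ) : Dk (k + 1) φ n = Dk k φ (n + 1) - Dk k φ n := by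
  unfold Dk; rw [Function.iterate_succ_apply']; rfl

lemma Dk_diff (k h : ℕ) (φ : ℕ → ℝ) (n : ℕ) :
    Dk k (fun n => φ (n + h) - φ n) n = Dk k φ (n + h) - Dk k φ n := by
  induction k generalizing n with
  | zero => rfl
  | succ k ih =>
    rw [Dk_succ, ih, ih, Dk_succ, Dk_succ]
    have : n + 1 + h = n + h + 1 := by ring
    rw [this]; ring

lemma Dk_tele (k h : ℕ) (φ : ℕ → ℝ) (n : ℕ) :
    Dk k φ (n + h) - Dk k φ n = ∑ i ∈ range h, Dk (k + 1) φ (n + i) := by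
  have h1 := Finset.sum_range_sub (fun i => Dk k φ (n + i)) h
  simp only [add_zero] at h1
  rw [← h1]
  refine Finset.sum_congr rfl fun i _ => ?_
  rw [Dk_succ]; rfl

lemma Dk_diff_bounds {k : ℕ} {φ : ℕ → ℝ} {a b : ℕ} {mu A : ℝ}
    (hD : ∀ n, a ≤ n → n + (k + 1) < b → mu ≤ Dk (k + 1) φ n ∧ Dk (k + 1) φ n ≤ A * mu)
    (h : ℕ) (n : ℕ) (hn : a ≤ n) (hb : n + k < b - h) :
    h * mu ≤ Dk k (fun n => φ (n + h) - φ n) n ∧
      Dk k (fun n => φ (n + h) - φ n) n ≤ A * (h * mu) := by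
  rw [Dk_diff, Dk_tele]
  constructor
  · calc (h : ℝ) * mu = ∑ i ∈ range h, mu := by simp
      _ ≤ _ := Finset.sum_le_sum fun i hi => (hD (n + i) (by omega) (by
          rw [mem_range] at hi; omega)).1
  · calc _ ≤ ∑ i ∈ range h, A * mu := Finset.sum_le_sum fun i hi => (hD (n + i) (by omega) (by
          rw [mem_range] at hi; omega)).2
      _ = _ := by simp; ring

lemma triv (φ : ℕ → ℝ) (a b : ℕ) (hab : a ≤ b) :
    ‖∑ n ∈ Finset.Ico a b, e (φ n)‖ ≤ (b : ℝ) - a := by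
  calc _ ≤ ∑ n ∈ Finset.Ico a b, ‖e (φ n)‖ := norm_sum_le _ _
    _ = (b : ℝ) - a := by
      simp [norm_e, Nat.cast_sub hab]

/-- `k = 2`. -/
lemma base : PP 2 (1 / 2) 0 := by
  intro A hA
  refine ⟨3 + 100 * A, by positivity, ?_⟩
  intro φ a b mu hab hba hmu hD
  have hL : (0:ℝ) < (b : ℝ) - a := by
    have : (a : ℝ) < b := by exact_mod_cast hab
    linarith
  have hL1 : (1:ℝ) ≤ (b : ℝ) - a := by
    have : ((a + 1 : ℕ) : ℝ) ≤ b := by exact_mod_cast hab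
    push_cast at this; linarith
  have hmu1 : (0:ℝ) < mu ^ (1 / 2 : ℝ) := Real.rpow_pos_of_pos hmu _
  rw [Real.rpow_neg hmu.le, Real.rpow_zero, one_mul]
  have hpi : (3:ℝ) < Real.pi := Real.pi_gt_three
  have hpi2 : Real.pi < 3.15 := Real.pi_lt_d2
  rcases le_or_gt (2 * Real.pi * mu) 1 with h1 | h1
  · have hlast : ∑ n ∈ Finset.Ico a b, e (φ n) = ∑ n ∈ Finset.Ico a (b - 1), e (φ n) + e (φ (b - 1)) := by
      have hb : b = (b - 1) + 1 := by omega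
      conv_lhs => rw [hb]
      rw [Finset.sum_Ico_succ_top (by omega)]
    have hmain : ‖∑ n ∈ Finset.Ico a (b - 1), e (φ n)‖ ≤
        (A * (2 * Real.pi * mu) * ((b : ℝ) - a) / 6 + 2) * (12 / Real.sqrt (2 * Real.pi * mu)) := by
      rcases Nat.lt_or_ge a (b - 1) with h2 | h2
      · have h3 := vdc2 (fun n => 2 * Real.pi * φ n) a (b - 1) h2 (2 * Real.pi * mu) A
          (by positivity) h1 hA (fun n hn hb => by
            have := (hD n hn (by omega)).1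
            rw [Dk_succ, Dk_succ, Dk_succ, Dk_zero, Dk_zero, Dk_zero] at this
            have h4 := mul_le_mul_of_nonneg_left this (by positivity : (0:ℝ) ≤ 2 * Real.pi)
            simp only [add_assoc] at h4
            norm_num at h4
            nlinarith [h4]) (fun n hn hb => by
            have := (hD n hn (by omega)).2
            rw [Dk_succ, Dk_succ, Dk_succ, Dk_zero, Dk_zero, Dk_zero] at this
            have h4 := mul_le_mul_of_nonneg_left this (by positivity : (0:ℝ) ≤ 2 * Real.pi)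
            simp only [add_assoc] at h4
            norm_num at h4
            nlinarith [h4])
        refine le_trans h3 ?_
        refine mul_le_mul_of_nonneg_right ?_ (by positivity)
        have h5 : ((b - 1 : ℕ) : ℝ) - a ≤ (b : ℝ) - a := by
          have : ((b - 1 : ℕ) : ℝ) ≤ b := by exact_mod_cast Nat.sub_le b 1
          linarith
        have h6 := mul_le_mul_of_nonneg_left h5 (by positivity : (0:ℝ) ≤ A * (2 * Real.pi * mu))
        linarith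
      · rw [Finset.Ico_eq_empty_of_le h2]
        simp only [Finset.sum_empty, norm_zero]
        positivity
    have hsq : Real.sqrt (2 * Real.pi * mu) = Real.sqrt (2 * Real.pi) * mu ^ (1 / 2 : ℝ) := by
      rw [Real.sqrt_mul (by positivity), Real.sqrt_eq_rpow mu]
    set s := Real.sqrt (2 * Real.pi) with hs
    have hs0 : 0 < s := Real.sqrt_pos.2 (by positivity)
    have hs2 : s * s = 2 * Real.pi := Real.mul_self_sqrt (by positivity)
    set m := mu ^ (1 / 2 : ℝ) with hm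
    have hmm : m * m = mu := by
      rw [hm, ← Real.rpow_add hmu]; norm_num
    have hs1 : 2 ≤ s := by nlinarith
    have hs3 : s ≤ 3 := by nlinarith
    have hb : (A * (2 * Real.pi * mu) * ((b : ℝ) - a) / 6 + 2) * (12 / Real.sqrt (2 * Real.pi * mu))
        = 2 * A * s * (((b : ℝ) - a) * m) + 24 / s * m⁻¹ := by
      rw [hsq, ← hs2, ← hmm]
      field_simp
      ring
    rw [hb] at hmain
    have hm1 : m ≤ 1 := by
      rw [hm]; apply Real.rpow_le_one hmu.le _ (by norm_num)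
      nlinarith
    have hm2 : 1 ≤ m⁻¹ := by
      rw [one_le_inv₀ hmu1]; exact hm1
    have h7 : 24 / s * m⁻¹ ≤ 12 * m⁻¹ := by
      refine mul_le_mul_of_nonneg_right ?_ (by positivity)
      rw [div_le_iff₀ hs0]; linarith
    have h8 : 2 * A * s * (((b : ℝ) - a) * m) ≤ 6 * A * (((b : ℝ) - a) * m) := by
      refine mul_le_mul_of_nonneg_right ?_ (by positivity)
      nlinarith
    calc ‖∑ n ∈ Finset.Ico a b, e (φ n)‖ ≤ ‖∑ n ∈ Finset.Ico a (b - 1), e (φ n)‖ + ‖e (φ (b - 1))‖ := by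
          rw [hlast]; exact norm_add_le _ _
      _ ≤ (6 * A * (((b : ℝ) - a) * m) + 12 * m⁻¹) + 1 := by
          rw [norm_e]; linarith
      _ ≤ (6 * A * (((b : ℝ) - a) * m) + 12 * m⁻¹) + m⁻¹ := by linarith
      _ ≤ (3 + 100 * A) * (((b : ℝ) - a) * m + m⁻¹) := by
          have e1 : 0 ≤ ((b : ℝ) - a) * m := by positivity
          have e2 : 0 ≤ m⁻¹ := by positivity
          nlinarith [mul_nonneg (by linarith : (0:ℝ) ≤ A - 1) e2, mul_nonneg (by linarith : (0:ℝ) ≤ A - 1) e1]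
  · have h2 : 1 / 9 ≤ mu := by nlinarith
    have h3 : 1 / 3 ≤ mu ^ (1 / 2 : ℝ) := by
      rw [← Real.sqrt_eq_rpow]
      apply Real.le_sqrt_of_sq_le
      nlinarith
    refine le_trans (triv φ a b hab.le) ?_
    have h4 : (b : ℝ) - a ≤ 3 * (((b : ℝ) - a) * mu ^ (1 / 2 : ℝ)) := by nlinarith
    have h5 : 0 ≤ ((b : ℝ) - a) * mu ^ (1 / 2 : ℝ) := by positivity
    have h6 : 0 < (mu ^ (1 / 2 : ℝ))⁻¹ := by positivity
    nlinarith [mul_nonneg (by linarith : (0:ℝ) ≤ A) h5, mul_nonneg (by linarith : (0:ℝ) ≤ A) h6.le]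

lemma sum_inv_sqrt' (H : ℕ) : ∑ h ∈ Ico 1 (H + 1), (Real.sqrt (h : ℝ))⁻¹ ≤ 2 * Real.sqrt (H : ℝ) := by
  induction H with
  | zero => simp
  | succ H ih =>
    rw [Finset.sum_Ico_succ_top (by omega)]
    set s := Real.sqrt (H : ℝ) with hs
    set t := Real.sqrt ((H + 1 : ℕ) : ℝ) with ht
    have hs0 : 0 ≤ s := Real.sqrt_nonneg _
    have hss : s * s = H := Real.mul_self_sqrt (by positivity)
    have htt : t * t = H + 1 := by
      rw [ht, Real.mul_self_sqrt (by positivity)]; push_cast; ring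
    have ht0 : 0 < t := Real.sqrt_pos.2 (by positivity)
    have hst : s ≤ t := by nlinarith
    have h2 : t⁻¹ ≤ 2 * t - 2 * s := by
      rw [inv_le_iff_one_le_mul₀ ht0]
      nlinarith [sq_nonneg (t - s)]
    linarith

lemma sum_inv_sqrt (H : ℕ) (hH : 1 ≤ H) :
    ∑ h ∈ Ico 1 H, ((h : ℝ) ^ (1 / 2 : ℝ))⁻¹ ≤ 2 * (H : ℝ) ^ (1 / 2 : ℝ) := by
  have h1 := sum_inv_sqrt' (H - 1)
  have h2 : H - 1 + 1 = H := by omega
  rw [h2] at h1
  have h3 : Real.sqrt ((H - 1 : ℕ) : ℝ) ≤ Real.sqrt (H : ℝ) :=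
    Real.sqrt_le_sqrt (by exact_mod_cast Nat.sub_le H 1)
  simp only [← Real.sqrt_eq_rpow]
  linarith

lemma sum_pow (κ : ℝ) (h1 : κ ≤ 1 / 2) (H : ℕ) (hH : 1 ≤ H) :
    ∑ h ∈ Ico 1 H, (h : ℝ) ^ (-κ) ≤ 2 * (H * (H : ℝ) ^ (-κ)) := by
  have hH0 : (0:ℝ) < H := by exact_mod_cast hH
  have e1 : ∀ h ∈ Ico 1 H, (h : ℝ) ^ (-κ) ≤
      ((H : ℝ) ^ (-κ) * (H : ℝ) ^ (1 / 2 : ℝ)) * ((h : ℝ) ^ (1 / 2 : ℝ))⁻¹ := by
    intro h hh
    rw [mem_Ico] at hh
    have hh0 : (0:ℝ) < h := by exact_mod_cast hh.1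
    have hh1 : (h:ℝ) ≤ H := by exact_mod_cast hh.2.le
    have e2 : (h : ℝ) ^ (1 / 2 - κ) ≤ (H : ℝ) ^ (1 / 2 - κ) :=
      Real.rpow_le_rpow hh0.le hh1 (by linarith)
    have e3 : (h : ℝ) ^ (-κ) = (h : ℝ) ^ (1 / 2 - κ) * ((h : ℝ) ^ (1 / 2 : ℝ))⁻¹ := by
      rw [← Real.rpow_neg hh0.le, ← Real.rpow_add hh0]; congr 1; ring
    have e4 : (H : ℝ) ^ (-κ) * (H : ℝ) ^ (1 / 2 : ℝ) = (H : ℝ) ^ (1 / 2 - κ) := by
      rw [← Real.rpow_add hH0]; congr 1; ring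
    rw [e3, e4]
    exact mul_le_mul_of_nonneg_right e2 (by positivity)
  have e5 : (H : ℝ) ^ (1 / 2 : ℝ) * (H : ℝ) ^ (1 / 2 : ℝ) = H := by
    rw [← Real.rpow_add hH0]; norm_num
  calc _ ≤ ∑ h ∈ Ico 1 H, ((H : ℝ) ^ (-κ) * (H : ℝ) ^ (1 / 2 : ℝ)) * ((h : ℝ) ^ (1 / 2 : ℝ))⁻¹ :=
        Finset.sum_le_sum e1
    _ = ((H : ℝ) ^ (-κ) * (H : ℝ) ^ (1 / 2 : ℝ)) * ∑ h ∈ Ico 1 H, ((h : ℝ) ^ (1 / 2 : ℝ))⁻¹ := by
        rw [Finset.mul_sum]
    _ ≤ ((H : ℝ) ^ (-κ) * (H : ℝ) ^ (1 / 2 : ℝ)) * (2 * (H : ℝ) ^ (1 / 2 : ℝ)) :=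
        mul_le_mul_of_nonneg_left (sum_inv_sqrt H hH) (by positivity)
    _ = 2 * (((H : ℝ) ^ (1 / 2 : ℝ) * (H : ℝ) ^ (1 / 2 : ℝ)) * (H : ℝ) ^ (-κ)) := by ring
    _ = _ := by rw [e5]

lemma step (k : ℕ) (κ ρ : ℝ) (hk0 : 0 < κ) (hk1 : κ ≤ 1 / 2) (hρ : 0 ≤ ρ) (hP : PP k κ ρ) :
    PP (k + 1) (κ / (2 * (1 + κ))) ((1 + ρ) / 2) := by
  intro A hA
  obtain ⟨C, hC, hP⟩ := hP A hA
  refine ⟨4 + 16 * C, by positivity, ?_⟩
  intro φ a b mu hab hba hmu hD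
  set κ' := κ / (2 * (1 + κ)) with hκ'
  have hκ'0 : 0 < κ' := by positivity
  set L : ℝ := (b : ℝ) - a with hL
  have hL0 : (0:ℝ) < L := by
    have : (a : ℝ) < b := by exact_mod_cast hab
    rw [hL]; linarith
  have hL1 : (1:ℝ) ≤ L := by
    have : ((a + 1 : ℕ) : ℝ) ≤ b := by exact_mod_cast hab
    push_cast at this; rw [hL]; linarith
  have hT := triv φ a b hab.le
  have hp1 : 0 < mu ^ κ' := Real.rpow_pos_of_pos hmu _
  have hp2 : 0 < mu ^ (-κ') := Real.rpow_pos_of_pos hmu _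
  have hp3 : 0 < L ^ ((1 + ρ) / 2) := Real.rpow_pos_of_pos hL0 _
  have hq1 : 0 < L * mu ^ κ' := by positivity
  have hq2 : 0 < L ^ ((1 + ρ) / 2) * mu ^ (-κ') := by positivity
  rcases le_or_gt 1 mu with hmu1 | hmu1
  · have h1 : 1 ≤ mu ^ κ' := Real.one_le_rpow hmu1 hκ'0.le
    have h2 : L ≤ L * mu ^ κ' := by nlinarith
    calc _ ≤ L := hT
      _ ≤ 1 * (L * mu ^ κ' + L ^ ((1 + ρ) / 2) * mu ^ (-κ')) := by linarith
      _ ≤ _ := mul_le_mul_of_nonneg_right (by linarith) (by linarith)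
  set x : ℝ := mu ^ (-(2 * κ')) with hx
  have hx0 : 0 < x := Real.rpow_pos_of_pos hmu _
  have hx1 : 1 ≤ x := by
    rw [hx]
    exact Real.one_le_rpow_of_pos_of_le_one_of_nonpos hmu hmu1.le (by linarith)
  have hxx : x ^ (1 / 2 : ℝ) = mu ^ (-κ') := by
    rw [hx, ← Real.rpow_mul hmu.le]; congr 1; ring
  rcases le_or_gt x L with hxL | hxL
  swap
  · have h1 : L ^ (1 / 2 : ℝ) ≤ mu ^ (-κ') := by
      rw [← hxx]; exact Real.rpow_le_rpow hL0.le hxL.le (by norm_num)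
    have h2 : L ≤ L ^ ((1 + ρ) / 2) * L ^ (1 / 2 : ℝ) := by
      rw [← Real.rpow_add hL0]
      calc L = L ^ (1 : ℝ) := (Real.rpow_one L).symm
        _ ≤ _ := Real.rpow_le_rpow_of_exponent_le hL1 (by linarith)
    have h3 : L ^ ((1 + ρ) / 2) * L ^ (1 / 2 : ℝ) ≤ L ^ ((1 + ρ) / 2) * mu ^ (-κ') :=
      mul_le_mul_of_nonneg_left h1 hp3.le
    calc _ ≤ L := hT
      _ ≤ 1 * (L * mu ^ κ' + L ^ ((1 + ρ) / 2) * mu ^ (-κ')) := by linarith
      _ ≤ _ := mul_le_mul_of_nonneg_right (by linarith) (by linarith)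
  set H : ℕ := ⌊x⌋₊ with hH
  have hHx : (H : ℝ) ≤ x := Nat.floor_le hx0.le
  have hH1 : 1 ≤ H := by
    rw [hH]; exact Nat.le_floor (by push_cast; exact hx1)
  have hHr : (1:ℝ) ≤ H := by exact_mod_cast hH1
  have hHx2 : x / 2 ≤ H := by
    have := Nat.lt_floor_add_one x
    rw [← hH] at this
    linarith
  have hHL : (H : ℝ) ≤ L := le_trans hHx hxL
  have hHLn : H ≤ b - a := by
    have : ((b - a : ℕ) : ℝ) = L := by rw [Nat.cast_sub hab.le]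
    rw [← this] at hHL
    exact_mod_cast hHL
  have hW := weyl_vdc (fun n => 2 * Real.pi * φ n) a b H hH1 (by omega) hab.le
    (fun h => C * (L * (h * mu) ^ κ + L ^ ρ * (h * mu) ^ (-κ))) (by
      intro h hh1 hh2
      have hh0 : (0:ℝ) < h := by exact_mod_cast hh1
      have h3 := hP (fun n => φ (n + h) - φ n) a (b - h) (h * mu) (by omega) (by omega)
        (by positivity) (fun n hn hb => Dk_diff_bounds hD h n hn hb)
      have h4 : ∀ n, ei (2 * Real.pi * φ (n + h) - 2 * Real.pi * φ n) = e (φ (n + h) - φ n) := by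
        intro n; rw [e_eq]; congr 1; ring
      simp only [h4]
      refine le_trans h3 ?_
      have h5 : ((b - h : ℕ) : ℝ) - a ≤ L := by
        have : ((b - h : ℕ) : ℝ) ≤ b := by exact_mod_cast Nat.sub_le b h
        rw [hL]; linarith
      have h6 : 0 ≤ ((b - h : ℕ) : ℝ) - a := by
        have : ((a : ℕ) : ℝ) ≤ ((b - h : ℕ) : ℝ) := by exact_mod_cast (by omega : a ≤ b - h)
        linarith
      have h7 : (((b - h : ℕ) : ℝ) - a) ^ ρ ≤ L ^ ρ := Real.rpow_le_rpow h6 h5 hρ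
      have h8 : 0 < (h * mu) ^ κ := Real.rpow_pos_of_pos (by positivity) _
      have h9 : 0 < (h * mu) ^ (-κ) := Real.rpow_pos_of_pos (by positivity) _
      refine mul_le_mul_of_nonneg_left ?_ hC.le
      exact add_le_add (mul_le_mul_of_nonneg_right h5 h8.le) (mul_le_mul_of_nonneg_right h7 h9.le))
  have hS : ∑ n ∈ Ico a b, ei (2 * Real.pi * φ n) = ∑ n ∈ Ico a b, e (φ n) := rfl
  rw [hS] at hW
  set S := ‖∑ n ∈ Ico a b, e (φ n)‖ with hSdef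
  have hS0 : 0 ≤ S := norm_nonneg _
  -- the sum over `h`
  have hH0 : (0:ℝ) < H := by linarith
  have hs1 : ∑ h ∈ Ico 1 H, (C * (L * ((h:ℕ) * mu) ^ κ + L ^ ρ * ((h:ℕ) * mu) ^ (-κ)) : ℝ) ≤
      C * (L * (H * (H * mu) ^ κ) + L ^ ρ * (2 * (H * (H * mu) ^ (-κ)))) := by
    rw [← Finset.mul_sum]
    refine mul_le_mul_of_nonneg_left ?_ hC.le
    rw [Finset.sum_add_distrib, ← Finset.mul_sum, ← Finset.mul_sum]
    refine add_le_add (mul_le_mul_of_nonneg_left ?_ hL0.le) (mul_le_mul_of_nonneg_left ?_ (by positivity))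
    · calc ∑ h ∈ Ico 1 H, ((h:ℕ) * mu : ℝ) ^ κ ≤ ∑ h ∈ Ico 1 H, (H * mu : ℝ) ^ κ := by
            refine Finset.sum_le_sum fun h hh => ?_
            rw [mem_Ico] at hh
            have hh1 : (h:ℝ) ≤ H := by exact_mod_cast hh.2.le
            exact Real.rpow_le_rpow (by positivity) (mul_le_mul_of_nonneg_right hh1 hmu.le) hk0.le
        _ = ((H - 1 : ℕ) : ℝ) * (H * mu) ^ κ := by simp
        _ ≤ _ := by
            refine mul_le_mul_of_nonneg_right ?_ (by positivity)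
            exact_mod_cast Nat.sub_le H 1
    · calc ∑ h ∈ Ico 1 H, ((h:ℕ) * mu : ℝ) ^ (-κ) = (∑ h ∈ Ico 1 H, (h:ℝ) ^ (-κ)) * mu ^ (-κ) := by
            rw [Finset.sum_mul]
            refine Finset.sum_congr rfl fun h _ => ?_
            rw [Real.mul_rpow (by positivity) hmu.le]
        _ ≤ (2 * (H * (H : ℝ) ^ (-κ))) * mu ^ (-κ) :=
            mul_le_mul_of_nonneg_right (sum_pow κ hk1 H hH1) (by positivity)
        _ = _ := by rw [Real.mul_rpow hH0.le hmu.le]; ring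
  -- the powers
  have hk' : 2 * κ' * (1 + κ) = κ := by rw [hκ']; field_simp
  have hxmu : (x * mu) ^ κ = mu ^ (2 * κ') := by
    rw [hx]
    nth_rewrite 2 [← Real.rpow_one mu]
    rw [← Real.rpow_add hmu, ← Real.rpow_mul hmu.le]
    congr 1
    nlinarith
  have hpw1 : (H * mu) ^ κ ≤ mu ^ (2 * κ') := by
    rw [← hxmu]
    exact Real.rpow_le_rpow (by positivity) (mul_le_mul_of_nonneg_right hHx hmu.le) hk0.le
  have hpw2 : (H * mu) ^ (-κ) ≤ 2 * mu ^ (-(2 * κ')) := by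
    calc (H * mu) ^ (-κ) ≤ (x / 2 * mu) ^ (-κ) :=
          Real.rpow_le_rpow_of_nonpos (by positivity) (mul_le_mul_of_nonneg_right hHx2 hmu.le)
            (by linarith)
      _ = (2⁻¹ * (x * mu)) ^ (-κ) := by congr 1; ring
      _ = (2⁻¹ : ℝ) ^ (-κ) * (x * mu) ^ (-κ) := Real.mul_rpow (by positivity) (by positivity)
      _ ≤ 2 * (x * mu) ^ (-κ) := by
          refine mul_le_mul_of_nonneg_right ?_ (by positivity)
          rw [Real.inv_rpow (by norm_num), Real.rpow_neg (by norm_num), inv_inv]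
          calc (2:ℝ) ^ κ ≤ 2 ^ (1:ℝ) := Real.rpow_le_rpow_of_exponent_le (by norm_num) (by linarith)
            _ = 2 := Real.rpow_one 2
      _ = _ := by rw [Real.rpow_neg (by positivity), hxmu, ← Real.rpow_neg hmu.le]
  set m := mu ^ κ' with hm
  have hmm : mu ^ (2 * κ') = m ^ 2 := by
    rw [hm, ← Real.rpow_natCast, ← Real.rpow_mul hmu.le]; congr 1; push_cast; ring
  have hmi : mu ^ (-κ') = m⁻¹ := by rw [hm, Real.rpow_neg hmu.le]
  have hmmi : mu ^ (-(2 * κ')) = (m⁻¹) ^ 2 := by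
    rw [Real.rpow_neg hmu.le, hmm, inv_pow]
  have hx2 : x = (m⁻¹) ^ 2 := by rw [hx, hmmi]
  have hm0 : 0 < m := hp1
  set R := L ^ ((1 + ρ) / 2) with hR
  have hRR : R ^ 2 = L * L ^ ρ := by
    rw [hR, ← Real.rpow_natCast, ← Real.rpow_mul hL0.le]
    nth_rewrite 2 [← Real.rpow_one L]
    rw [← Real.rpow_add hL0]
    congr 1; push_cast; ring
  rw [hmm] at hpw1
  rw [hmmi] at hpw2
  have hkey : S ^ 2 * H ≤ H * ((4 + 4 * C) * (L * m) ^ 2 + 16 * C * (R * m⁻¹) ^ 2) := by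
    have hB0 : 0 ≤ ∑ h ∈ Ico 1 H, (C * (L * ((h:ℕ) * mu) ^ κ + L ^ ρ * ((h:ℕ) * mu) ^ (-κ)) : ℝ) :=
      Finset.sum_nonneg fun h _ => by positivity
    calc S ^ 2 * H ≤ (L + H) * (L + 2 * ∑ h ∈ Ico 1 H, (C * (L * ((h:ℕ) * mu) ^ κ +
            L ^ ρ * ((h:ℕ) * mu) ^ (-κ)) : ℝ)) := hW
      _ ≤ (L + L) * (L + 2 * (C * (L * (H * (H * mu) ^ κ) + L ^ ρ * (2 * (H * (H * mu) ^ (-κ)))))) := by
          refine mul_le_mul (by linarith) (by linarith) (by linarith) (by linarith)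
      _ ≤ (L + L) * (2 * L * m ^ 2 * H + 2 * (C * (L * (H * m ^ 2) + L ^ ρ * (2 * (H * (2 * (m⁻¹) ^ 2)))))) := by
          refine mul_le_mul_of_nonneg_left ?_ (by linarith)
          refine add_le_add ?_ ?_
          · have h1 : 1 ≤ 2 * m ^ 2 * H := by
              have h2 : m ^ 2 * x = 1 := by
                rw [hx2]; field_simp
              have h3 := mul_le_mul_of_nonneg_left hHx2 (by positivity : (0:ℝ) ≤ m ^ 2)
              linarith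
            have h4 := mul_le_mul_of_nonneg_left h1 hL0.le
            linarith
          · gcongr
      _ = H * ((4 + 4 * C) * (L * m) ^ 2 + 16 * C * (L * L ^ ρ * (m⁻¹) ^ 2)) := by ring
      _ = _ := by rw [← hRR]; ring
  have hkey2 : S ^ 2 ≤ (4 + 4 * C) * (L * m) ^ 2 + 16 * C * (R * m⁻¹) ^ 2 := by
    rw [mul_comm] at hkey
    exact le_of_mul_le_mul_left hkey hH0
  rw [hmi]
  apply le_of_sq_le_sq _ (by positivity)
  set P := L * m
  set Q := R * m⁻¹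
  have hP0 : 0 < P := hq1
  have hR0 : 0 < R := hp3
  have hQ0 : 0 < Q := mul_pos hR0 (inv_pos.2 hm0)
  have g1 : P ^ 2 + Q ^ 2 ≤ (P + Q) ^ 2 := by
    have := mul_pos hP0 hQ0
    linarith [(by ring : (P + Q) ^ 2 = P ^ 2 + Q ^ 2 + 2 * (P * Q))]
  have g2 : (4 + 4 * C) * P ^ 2 + 16 * C * Q ^ 2 ≤ (4 + 16 * C) * (P ^ 2 + Q ^ 2) := by
    have a1 : 0 ≤ C * P ^ 2 := by positivity
    have a2 : 0 ≤ Q ^ 2 := by positivity
    linarith [(by ring : (4 + 16 * C) * (P ^ 2 + Q ^ 2) = (4 + 4 * C) * P ^ 2 + 16 * C * Q ^ 2 + 12 * (C * P ^ 2) + 4 * Q ^ 2)]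
  have g3 : (4 + 16 * C) * (P ^ 2 + Q ^ 2) ≤ (4 + 16 * C) * (P + Q) ^ 2 :=
    mul_le_mul_of_nonneg_left g1 (by positivity)
  have g4 : (4 + 16 * C) * (P + Q) ^ 2 ≤ (4 + 16 * C) * ((4 + 16 * C) * (P + Q) ^ 2) := by
    refine mul_le_mul_of_nonneg_left ?_ (by positivity)
    have a3 : 0 ≤ (P + Q) ^ 2 := by positivity
    have a4 : 0 ≤ C * (P + Q) ^ 2 := by positivity
    linarith [(by ring : (4 + 16 * C) * (P + Q) ^ 2 = (P + Q) ^ 2 + 3 * (P + Q) ^ 2 + 16 * (C * (P + Q) ^ 2))]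
  calc S ^ 2 ≤ (4 + 4 * C) * P ^ 2 + 16 * C * Q ^ 2 := hkey2
    _ ≤ (4 + 16 * C) * ((4 + 16 * C) * (P + Q) ^ 2) := by linarith
    _ = _ := by ring

lemma all (j : ℕ) : PP (j + 2) (1 / ((2 : ℝ) ^ (j + 2) - 2)) (1 - (2 : ℝ) ^ (2 - ((j + 2 : ℕ) : ℝ))) := by
  induction j with
  | zero =>
    have h := base
    norm_num at h ⊢
    exact h
  | succ j ih =>
    have h2 : (1:ℝ) ≤ 2 ^ j := one_le_pow₀ (by norm_num)
    have h3 : (2:ℝ) ^ (j + 2) = 4 * 2 ^ j := by ring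
    have h4 : (2:ℝ) ^ (j + 1 + 2) = 8 * 2 ^ j := by ring
    have h5 : (2:ℝ) ^ (2 - ((j + 2 : ℕ) : ℝ)) = (2 ^ j)⁻¹ := by
      have : (2 - ((j + 2 : ℕ) : ℝ)) = -(j:ℝ) := by push_cast; ring
      rw [this, Real.rpow_neg (by norm_num), Real.rpow_natCast]
    have h6 : (2:ℝ) ^ (2 - ((j + 1 + 2 : ℕ) : ℝ)) = (2 ^ j)⁻¹ / 2 := by
      have : (2 - ((j + 1 + 2 : ℕ) : ℝ)) = -((j + 1 : ℕ) : ℝ) := by push_cast; ring
      rw [this, Real.rpow_neg (by norm_num), Real.rpow_natCast, pow_succ]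
      field_simp
    have h7 : (0:ℝ) < 4 * 2 ^ j - 2 := by linarith
    have h8 : (0:ℝ) < 8 * 2 ^ j - 2 := by linarith
    have h := step (j + 2) _ _ (by rw [h3]; positivity) (by
      rw [h3, div_le_div_iff₀ h7 (by norm_num)]; linarith) (by
      rw [h5, sub_nonneg]; exact inv_le_one_of_one_le₀ h2) ih
    have e1 : 1 / ((2 : ℝ) ^ (j + 2) - 2) / (2 * (1 + 1 / ((2 : ℝ) ^ (j + 2) - 2))) =
        1 / ((2 : ℝ) ^ (j + 1 + 2) - 2) := by
      rw [h3, h4]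
      have h9 : (4 * 2 ^ j - 2 : ℝ) ≠ 0 := h7.ne'
      have h10 : (8 * 2 ^ j - 2 : ℝ) ≠ 0 := h8.ne'
      have h11 : (1 + 1 / (4 * 2 ^ j - 2) : ℝ) = (4 * 2 ^ j - 1) / (4 * 2 ^ j - 2) := by
        field_simp; ring
      have h12 : (4 * 2 ^ j - 1 : ℝ) ≠ 0 := by linarith
      have h13 : (2 * ((4 * 2 ^ j - 1) / (4 * 2 ^ j - 2)) : ℝ) = (8 * 2 ^ j - 2) / (4 * 2 ^ j - 2) := by ring
      rw [h11, h13, div_div_div_cancel_right₀ h9]
    have e2 : (1 + (1 - (2 : ℝ) ^ (2 - ((j + 2 : ℕ) : ℝ)))) / 2 = 1 - (2 : ℝ) ^ (2 - ((j + 1 + 2 : ℕ) : ℝ)) := by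
      rw [h5, h6]; ring
    rw [e1, e2] at h
    exact h

theorem kder : KderStatement := by
  intro k hk A hA
  obtain ⟨j, rfl⟩ : ∃ j, k = j + 2 := ⟨k - 2, by omega⟩
  exact all j A hA

end Pool.Agent.Lib.MP_3ee548_nt.RS.H65
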