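import Pool.Agent.Lib.MP_3ee548_nt.RS.Iface

set_option autoImplicit false

open Finset

namespace Pool.Agent.Lib.MP_3ee548_nt.RS.H65

open Pool.Agent.Lib.MP_3ee548_nt.RS

lemma sum_blocks (f : ℕ → ℂ) (J : ℕ) :
    ∑ m ∈ Ico 1 (2 ^ J), f m = ∑ j ∈ range J, ∑ m ∈ blk j, f m := by
  induction J with
  | zero => simp
  | succ J ih =>
    rw [Finset.sum_range_succ, ← ih, blk]
    rw [Finset.sum_Ico_consecutive f Nat.one_le_two_pow (Nat.pow_le_pow_right (by norm_num) (by omega))]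

lemma holder4 (s : Finset ℕ) (w x : ℕ → ℝ) (hw : ∀ i ∈ s, 0 ≤ w i) :
    (∑ i ∈ s, w i * x i) ^ 4 ≤ (∑ i ∈ s, w i) ^ 3 * ∑ i ∈ s, w i * x i ^ 4 := by
  have h1 := Finset.sum_sq_le_sum_mul_sum_of_sq_le_mul s (r := fun i => w i * x i) (f := w)
    (g := fun i => w i * x i ^ 2) hw (fun i hi => mul_nonneg (hw i hi) (sq_nonneg _))
    (fun i _ => le_of_eq (by ring))
  have h2 := Finset.sum_sq_le_sum_mul_sum_of_sq_le_mul s (r := fun i => w i * x i ^ 2) (f := w)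
    (g := fun i => w i * x i ^ 4) hw (fun i hi => mul_nonneg (hw i hi) (by positivity))
    (fun i _ => le_of_eq (by ring))
  have h3 : 0 ≤ ∑ i ∈ s, w i := Finset.sum_nonneg hw
  have h4 : 0 ≤ ∑ i ∈ s, w i * x i ^ 2 :=
    Finset.sum_nonneg fun i hi => mul_nonneg (hw i hi) (sq_nonneg _)
  calc (∑ i ∈ s, w i * x i) ^ 4 = ((∑ i ∈ s, w i * x i) ^ 2) ^ 2 := by ring
    _ ≤ ((∑ i ∈ s, w i) * ∑ i ∈ s, w i * x i ^ 2) ^ 2 := pow_le_pow_left₀ (sq_nonneg _) h1 2
    _ = (∑ i ∈ s, w i) ^ 2 * (∑ i ∈ s, w i * x i ^ 2) ^ 2 := by ring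
    _ ≤ (∑ i ∈ s, w i) ^ 2 * ((∑ i ∈ s, w i) * ∑ i ∈ s, w i * x i ^ 4) :=
        mul_le_mul_of_nonneg_left h2 (by positivity)
    _ = _ := by ring

lemma exp_mul_pow (y : ℝ) (hy : 0 ≤ y) (n : ℕ) : Real.exp (-y) * y ^ n ≤ n.factorial := by
  have h := Real.pow_div_factorial_le_exp y hy n
  have h0 : (0:ℝ) < n.factorial := by exact_mod_cast n.factorial_pos
  rw [div_le_iff₀ h0] at h
  rw [Real.exp_neg]
  rw [inv_mul_le_iff₀ (Real.exp_pos y)]
  exact h

/-- the weight. -/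
noncomputable def wt (y : ℝ) : ℝ := Real.exp (-(y + 1 / y))

lemma wt_small (y : ℝ) (hy : 0 < y) (hy1 : y ≤ 1) :
    wt y * (1 + y ^ 6 * (1 + y)) ≤ 403202 * y ^ 2 := by
  have h1 : wt y ≤ 2 * y ^ 2 := by
    have h2 := exp_mul_pow (1 / y) (by positivity) 2
    have h3 : wt y ≤ Real.exp (-(1 / y)) := by
      unfold wt; apply Real.exp_le_exp.2; linarith
    have h4 : Real.exp (-(1 / y)) = Real.exp (-(1 / y)) * (1 / y) ^ 2 * y ^ 2 := by
      field_simp
    have h5 : Real.exp (-(1 / y)) * (1 / y) ^ 2 * y ^ 2 ≤ ((Nat.factorial 2 : ℕ) : ℝ) * y ^ 2 :=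
      mul_le_mul_of_nonneg_right h2 (by positivity)
    rw [Nat.factorial_two] at h5
    push_cast at h5
    linarith
  have h6 : 1 + y ^ 6 * (1 + y) ≤ 3 := by
    have : y ^ 6 ≤ 1 := pow_le_one₀ hy.le hy1
    nlinarith [pow_pos hy 6]
  have h7 : 0 < wt y := Real.exp_pos _
  have h8 : 0 < y ^ 2 := by positivity
  calc wt y * (1 + y ^ 6 * (1 + y)) ≤ (2 * y ^ 2) * 3 := by
        apply mul_le_mul h1 h6 (by positivity) (by positivity)
    _ ≤ _ := by linarith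

lemma wt_large (y : ℝ) (hy : 0 < y) :
    wt y * (1 + y ^ 6 * (1 + y)) ≤ 403202 * (1 / y ^ 2) := by
  have h3 : wt y ≤ Real.exp (-y) := by
    unfold wt; apply Real.exp_le_exp.2
    have : 0 < 1 / y := by positivity
    linarith
  have h1 := exp_mul_pow y hy.le 2
  have h2 := exp_mul_pow y hy.le 8
  have h4 := exp_mul_pow y hy.le 9
  have e1 : ((Nat.factorial 2 : ℕ) : ℝ) = 2 := by norm_num [Nat.factorial]
  have e2 : ((Nat.factorial 8 : ℕ) : ℝ) = 40320 := by norm_num [Nat.factorial]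
  have e3 : ((Nat.factorial 9 : ℕ) : ℝ) = 362880 := by norm_num [Nat.factorial]
  rw [e1] at h1; rw [e2] at h2; rw [e3] at h4
  have h5 : wt y * (1 + y ^ 6 * (1 + y)) * y ^ 2 ≤ 403202 := by
    calc wt y * (1 + y ^ 6 * (1 + y)) * y ^ 2 ≤ Real.exp (-y) * (1 + y ^ 6 * (1 + y)) * y ^ 2 := by
          refine mul_le_mul_of_nonneg_right (mul_le_mul_of_nonneg_right h3 (by positivity)) (by positivity)
      _ = Real.exp (-y) * y ^ 2 + Real.exp (-y) * y ^ 8 + Real.exp (-y) * y ^ 9 := by ring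
      _ ≤ _ := by linarith
  rw [mul_one_div, le_div_iff₀ (by positivity)]
  exact h5

lemma sum_wt (k J : ℕ) (hJ : k + 1 ≤ J) :
    ∑ j ∈ range J, wt (Real.sqrt ((2:ℝ) ^ j / 2 ^ k)) *
      (1 + Real.sqrt ((2:ℝ) ^ j / 2 ^ k) ^ 6 * (1 + Real.sqrt ((2:ℝ) ^ j / 2 ^ k))) ≤ 403202 * 4 := by
  have hA : ∀ j, 0 < Real.sqrt ((2:ℝ) ^ j / 2 ^ k) := fun j => Real.sqrt_pos.2 (by positivity)
  have hB : ∀ j, Real.sqrt ((2:ℝ) ^ j / 2 ^ k) ^ 2 = (2:ℝ) ^ j / 2 ^ k := fun j =>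
    Real.sq_sqrt (by positivity)
  have e1 : ∑ j ∈ range J, wt (Real.sqrt ((2:ℝ) ^ j / 2 ^ k)) *
      (1 + Real.sqrt ((2:ℝ) ^ j / 2 ^ k) ^ 6 * (1 + Real.sqrt ((2:ℝ) ^ j / 2 ^ k))) =
      ∑ j ∈ range (k + 1), wt (Real.sqrt ((2:ℝ) ^ j / 2 ^ k)) *
      (1 + Real.sqrt ((2:ℝ) ^ j / 2 ^ k) ^ 6 * (1 + Real.sqrt ((2:ℝ) ^ j / 2 ^ k))) +
      ∑ j ∈ Ico (k + 1) J, wt (Real.sqrt ((2:ℝ) ^ j / 2 ^ k)) *
      (1 + Real.sqrt ((2:ℝ) ^ j / 2 ^ k) ^ 6 * (1 + Real.sqrt ((2:ℝ) ^ j / 2 ^ k))) := by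
    rw [Finset.sum_range_add_sum_Ico _ hJ]
  rw [e1]
  have e2 : ∑ j ∈ range (k + 1), wt (Real.sqrt ((2:ℝ) ^ j / 2 ^ k)) *
      (1 + Real.sqrt ((2:ℝ) ^ j / 2 ^ k) ^ 6 * (1 + Real.sqrt ((2:ℝ) ^ j / 2 ^ k))) ≤ 403202 * 2 := by
    calc _ ≤ ∑ j ∈ range (k + 1), 403202 * (1 / 2 : ℝ) ^ (k - j) := by
          refine Finset.sum_le_sum fun j hj => ?_
          rw [mem_range] at hj
          have h1 : Real.sqrt ((2:ℝ) ^ j / 2 ^ k) ≤ 1 := by
            apply Real.sqrt_le_one.2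
            rw [div_le_one (by positivity)]
            exact pow_le_pow_right₀ (by norm_num) (by omega)
          have h2 := wt_small _ (hA j) h1
          rw [hB j] at h2
          refine le_trans h2 (le_of_eq ?_)
          congr 1
          rw [one_div, inv_pow, div_eq_iff (by positivity), eq_comm, ← div_eq_inv_mul,
            div_eq_iff (by positivity), ← pow_add]
          congr 1; omega
      _ = 403202 * ∑ j ∈ range (k + 1), (1 / 2 : ℝ) ^ (k - j) := by rw [Finset.mul_sum]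
      _ = 403202 * ∑ j ∈ range (k + 1), (1 / 2 : ℝ) ^ j := by
          congr 1
          rw [← Finset.sum_range_reflect]
          refine Finset.sum_congr rfl fun j hj => ?_
          rw [mem_range] at hj
          congr 1; omega
      _ ≤ _ := by
          refine mul_le_mul_of_nonneg_left (sum_geometric_two_le _) (by norm_num)
  have e3 : ∑ j ∈ Ico (k + 1) J, wt (Real.sqrt ((2:ℝ) ^ j / 2 ^ k)) *
      (1 + Real.sqrt ((2:ℝ) ^ j / 2 ^ k) ^ 6 * (1 + Real.sqrt ((2:ℝ) ^ j / 2 ^ k))) ≤ 403202 * 2 := by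
    calc _ ≤ ∑ j ∈ Ico (k + 1) J, 403202 * (1 / 2 : ℝ) ^ (j - (k + 1)) := by
          refine Finset.sum_le_sum fun j hj => ?_
          rw [mem_Ico] at hj
          have h2 := wt_large _ (hA j)
          rw [hB j] at h2
          refine le_trans h2 ?_
          refine mul_le_mul_of_nonneg_left ?_ (by norm_num)
          rw [one_div_pow, one_div_div, div_le_div_iff₀ (by positivity) (by positivity), ← pow_add, one_mul]
          exact pow_le_pow_right₀ (by norm_num) (by omega)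
      _ = 403202 * ∑ j ∈ Ico (k + 1) J, (1 / 2 : ℝ) ^ (j - (k + 1)) := by rw [Finset.mul_sum]
      _ = 403202 * ∑ j ∈ range (J - (k + 1)), (1 / 2 : ℝ) ^ j := by
          congr 1
          rw [Finset.sum_Ico_eq_sum_range]
          refine Finset.sum_congr rfl fun j _ => ?_
          congr 1; omega
      _ ≤ _ := by
          refine mul_le_mul_of_nonneg_left (sum_geometric_two_le _) (by norm_num)
  linarith

lemma h0_le (k j m : ℕ) (hm : m ∈ blk j) :
    h0 (Real.sqrt ((m : ℝ) / 2 ^ k)) ≤ wt (Real.sqrt ((2:ℝ) ^ j / 2 ^ k)) := by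
  rw [blk, mem_Ico] at hm
  have h1 : ((2:ℝ) ^ j) ≤ m := by exact_mod_cast hm.1
  have h2 : (m:ℝ) ≤ 2 * 2 ^ j := by
    have : m ≤ 2 ^ (j + 1) := hm.2.le
    have h3 : (m:ℝ) ≤ (2:ℝ) ^ (j + 1) := by exact_mod_cast this
    rw [pow_succ] at h3; linarith
  set y := Real.sqrt ((2:ℝ) ^ j / 2 ^ k) with hy
  set z := Real.sqrt ((m : ℝ) / 2 ^ k) with hz
  have hy0 : 0 < y := Real.sqrt_pos.2 (by positivity)
  have hyz : y ≤ z := Real.sqrt_le_sqrt (div_le_div_of_nonneg_right h1 (by positivity))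
  have hz0 : 0 < z := lt_of_lt_of_le hy0 hyz
  have hz2 : z ≤ 2 * y := by
    have e1 : z ^ 2 = (m : ℝ) / 2 ^ k := Real.sq_sqrt (by positivity)
    have e2 : y ^ 2 = (2:ℝ) ^ j / 2 ^ k := Real.sq_sqrt (by positivity)
    have e3 : z ^ 2 ≤ 2 * y ^ 2 := by
      rw [e1, e2, ← mul_div_assoc]
      exact div_le_div_of_nonneg_right h2 (by positivity)
    nlinarith
  unfold h0 wt
  apply Real.exp_le_exp.2
  have hpi : 3 < Real.pi := Real.pi_gt_three
  have h4 : 1 / (2 * y) ≤ 1 / z := one_div_le_one_div_of_le hz0 hz2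
  have h5 : 1 / (2 * y) = (1 / y) / 2 := by field_simp
  have h6 : 0 < 1 / y := by positivity
  have h7 : 0 < 1 / z := by positivity
  nlinarith

theorem lowa (hQ : Qpos2Statement) (hT : TrivaStatement) : LowaStatement := by
  obtain ⟨C1, hC1, hQ⟩ := hQ
  obtain ⟨C2, hC2, hT⟩ := hT
  refine ⟨(403202 * 4) ^ 3 * (C1 * C2 * (403202 * 4)), by positivity, ?_⟩
  intro k
  set K : ℝ := (2:ℝ) ^ k with hK
  have hK0 : 0 < K := by positivity
  set T := Real.sqrt K with hTdef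
  have hT0 : 0 < T := Real.sqrt_pos.2 hK0
  have hTT : T * T = K := Real.mul_self_sqrt hK0.le
  set y : ℕ → ℝ := fun j => Real.sqrt ((2:ℝ) ^ j / K) with hy
  have hy0 : ∀ j, 0 < y j := fun j => Real.sqrt_pos.2 (by positivity)
  set w : ℕ → ℝ := fun j => wt (y j) with hw
  have hw0 : ∀ j, 0 < w j := fun j => Real.exp_pos _
  set X : ℕ → ℝ → ℂ := fun j t => ∑ m ∈ blk j, (((h0 (Real.sqrt ((m : ℝ) / 2 ^ k)) / w j : ℝ) : ℂ)) *
    e (t * sqf m) with hX
  have hcontX : ∀ j, Continuous (X j) := by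
    intro j
    rw [hX]
    refine continuous_finsetSum _ fun m _ => ?_
    refine continuous_const.mul ?_
    unfold e
    fun_prop
  have hSA : ∀ t, ‖SA k t‖ ≤ ∑ j ∈ range (2 * k + 4), w j * ‖X j t‖ := by
    intro t
    unfold SA
    rw [sum_blocks]
    refine le_trans (norm_sum_le _ _) (Finset.sum_le_sum fun j _ => ?_)
    have h1 : ∑ m ∈ blk j, ((h0 (Real.sqrt ((m : ℝ) / 2 ^ k)) : ℝ) : ℂ) * e (t * sqf m) =
        ((w j : ℝ) : ℂ) * X j t := by
      rw [hX]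
      simp only
      rw [Finset.mul_sum]
      refine Finset.sum_congr rfl fun m _ => ?_
      rw [← mul_assoc, ← Complex.ofReal_mul, mul_div_cancel₀ _ (hw0 j).ne']
    rw [h1, norm_mul, Complex.norm_real, Real.norm_of_nonneg (hw0 j).le]
  have hsumw : ∑ j ∈ range (2 * k + 4), w j ≤ 403202 * 4 := by
    refine le_trans (Finset.sum_le_sum fun j _ => ?_) (sum_wt k (2 * k + 4) (by omega))
    have h1 := hw0 j
    have h2 := hy0 j
    have h3 : 0 ≤ w j * (y j ^ 6 * (1 + y j)) := by positivity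
    show w j ≤ w j * (1 + y j ^ 6 * (1 + y j))
    linarith
  have hpt : ∀ t, ‖SA k t‖ ^ 4 ≤ (403202 * 4) ^ 3 * ∑ j ∈ range (2 * k + 4), w j * ‖X j t‖ ^ 4 := by
    intro t
    calc ‖SA k t‖ ^ 4 ≤ (∑ j ∈ range (2 * k + 4), w j * ‖X j t‖) ^ 4 :=
          pow_le_pow_left₀ (norm_nonneg _) (hSA t) 4
      _ ≤ (∑ j ∈ range (2 * k + 4), w j) ^ 3 * ∑ j ∈ range (2 * k + 4), w j * ‖X j t‖ ^ 4 :=
          holder4 _ _ _ (fun i _ => (hw0 i).le)
      _ ≤ _ := by
          refine mul_le_mul_of_nonneg_right (pow_le_pow_left₀ (Finset.sum_nonneg fun i _ => (hw0 i).le) hsumw 3) ?_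
          exact Finset.sum_nonneg fun i _ => mul_nonneg (hw0 i).le (by positivity)
  have hSAc : Continuous (SA k) := by
    unfold SA
    refine continuous_finsetSum _ fun m _ => ?_
    refine continuous_const.mul ?_
    unfold e
    fun_prop
  have hint : ∀ j, ∫ t in (0:ℝ)..T, ‖X j t‖ ^ 4 ≤ C1 * C2 * (T * K ^ 3) * (y j ^ 6 * (1 + y j)) := by
    intro j
    have h1 : ∫ t in (0:ℝ)..T, ‖X j t‖ ^ 4 ≤ ∫ t in (-T)..T, ‖X j t‖ ^ 4 := by
      apply intervalIntegral.integral_mono_interval (by linarith) hT0.le le_rfl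
      · exact Filter.Eventually.of_forall fun t => by positivity
      · exact ((hcontX j).norm.pow 4).intervalIntegrable _ _
    have h2 := hQ sqf (fun m => ((h0 (Real.sqrt ((m : ℝ) / 2 ^ k)) / w j : ℝ) : ℂ)) (blk j) T hT0
      (fun m hm => by
        have hh : 0 ≤ h0 (Real.sqrt ((m : ℝ) / 2 ^ k)) / w j :=
          div_nonneg (Real.exp_pos _).le (hw0 j).le
        rw [Complex.norm_real, Real.norm_of_nonneg hh, div_le_one (hw0 j)]
        exact h0_le k j m hm)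
    have h3 := hT j T hT0
    have h4 : ((2:ℝ) ^ j) = K * y j ^ 2 := by
      rw [hy]; simp only
      rw [Real.sq_sqrt (by positivity)]; field_simp
    have h5 : Real.sqrt ((2:ℝ) ^ j) / T = y j := by
      rw [hy, hTdef]; simp only
      rw [Real.sqrt_div (by positivity)]
    calc ∫ t in (0:ℝ)..T, ‖X j t‖ ^ 4 ≤ C1 * T * Q sqf (blk j) T := le_trans h1 h2
      _ ≤ C1 * T * (C2 * ((2 : ℝ) ^ j) ^ 3 * (1 + Real.sqrt ((2 : ℝ) ^ j) / T)) :=
          mul_le_mul_of_nonneg_left h3 (by positivity)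
      _ = _ := by rw [h5, h4]; ring
  have hcontsum : Continuous fun t => ∑ j ∈ range (2 * k + 4), w j * ‖X j t‖ ^ 4 :=
    continuous_finsetSum _ fun j _ => continuous_const.mul ((hcontX j).norm.pow 4)
  have hTK : T * K ^ 3 = K ^ (7 / 2 : ℝ) := by
    rw [hTdef, Real.sqrt_eq_rpow, ← Real.rpow_natCast, ← Real.rpow_add hK0]; norm_num
  calc ∫ t in (0:ℝ)..T, ‖SA k t‖ ^ 4
      ≤ ∫ t in (0:ℝ)..T, (403202 * 4) ^ 3 * ∑ j ∈ range (2 * k + 4), w j * ‖X j t‖ ^ 4 := by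
        apply intervalIntegral.integral_mono hT0.le
        · exact (hSAc.norm.pow 4).intervalIntegrable _ _
        · exact (continuous_const.mul hcontsum).intervalIntegrable _ _
        · exact fun t => hpt t
    _ = (403202 * 4) ^ 3 * ∑ j ∈ range (2 * k + 4), w j * ∫ t in (0:ℝ)..T, ‖X j t‖ ^ 4 := by
        rw [intervalIntegral.integral_const_mul, intervalIntegral.integral_finsetSum]
        · congr 1
          refine Finset.sum_congr rfl fun j _ => ?_
          rw [intervalIntegral.integral_const_mul]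
        · intro j _
          exact (continuous_const.mul ((hcontX j).norm.pow 4)).intervalIntegrable _ _
    _ ≤ (403202 * 4) ^ 3 * ∑ j ∈ range (2 * k + 4), w j * (C1 * C2 * (T * K ^ 3) * (y j ^ 6 * (1 + y j))) := by
        refine mul_le_mul_of_nonneg_left (Finset.sum_le_sum fun j _ => ?_) (by norm_num)
        exact mul_le_mul_of_nonneg_left (hint j) (hw0 j).le
    _ = (403202 * 4) ^ 3 * (C1 * C2 * (T * K ^ 3) * ∑ j ∈ range (2 * k + 4), w j * (y j ^ 6 * (1 + y j))) := by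
        congr 1
        rw [Finset.mul_sum]
        refine Finset.sum_congr rfl fun j _ => by ring
    _ ≤ (403202 * 4) ^ 3 * (C1 * C2 * (T * K ^ 3) * (403202 * 4)) := by
        refine mul_le_mul_of_nonneg_left (mul_le_mul_of_nonneg_left ?_ (by positivity)) (by norm_num)
        refine le_trans (Finset.sum_le_sum fun j _ => ?_) (sum_wt k (2 * k + 4) (by omega))
        have h1 := hw0 j
        show w j * (y j ^ 6 * (1 + y j)) ≤ w j * (1 + y j ^ 6 * (1 + y j))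
        linarith
    _ = _ := by rw [hTK]; ring

end Pool.Agent.Lib.MP_3ee548_nt.RS.H65
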